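import Mathlib

namespace Pool.Agent.Results.MP_80b08f_co.InfinitelyMany

/-- Permutations of all finite sizes. -/
abbrev P := Σ n : ℕ, Equiv.Perm (Fin n)

/-- `f` is an embedding of `σ` into `π`: it preserves the position order and the value order
(both in both directions, so it is injective). -/
def IsEmb {m n : ℕ} (σ : Equiv.Perm (Fin m)) (π : Equiv.Perm (Fin n)) (f : Fin m → Fin n) : Prop :=
  (∀ i j, i < j ↔ f i < f j) ∧ (∀ i j, σ i < σ j ↔ π (f i) < π (f j))

/-- A permutation class: a set of permutations closed under containment. -/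
def IsClass (C : Set P) : Prop :=
  ∀ σ π : P, π ∈ C → (∃ f, IsEmb σ.2 π.2 f) → σ ∈ C

/-- `C` is `α`-amalgamable. -/
def Amalgamable (C : Set P) (α : P) : Prop :=
  ∀ β ∈ C, ∀ γ ∈ C, ∀ (f : Fin α.1 → Fin β.1) (g : Fin α.1 → Fin γ.1),
    IsEmb α.2 β.2 f → IsEmb α.2 γ.2 g →
    ∃ δ ∈ C, ∃ (f' : Fin β.1 → Fin δ.1) (g' : Fin γ.1 → Fin δ.1),
      IsEmb β.2 δ.2 f' ∧ IsEmb γ.2 δ.2 g' ∧ f' ∘ f = g' ∘ g

/-- `C` is `1`-amalgamable. -/
def OneAmalgamable (C : Set P) : Prop :=
  ∀ α ∈ C, α.1 ≤ 1 → Amalgamable C α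

/-- The merge `A 0 ⊙ ... ⊙ A (k-1)`: the entries of `π` can be coloured with `k` colours so that
for each colour `i` the entries of colour `i` form a pattern in `A i`. -/
def Merge {k : ℕ} (A : Fin k → Set P) : Set P :=
  {π | ∃ c : Fin π.1 → Fin k, ∀ i, ∃ σ ∈ A i, ∃ f, IsEmb σ.2 π.2 f ∧ Set.range f = {x | c x = i}}

/-- `C` is splittable: it has a nontrivial splitting. -/
def Splittable (C : Set P) : Prop :=
  ∃ (k : ℕ) (A : Fin k → Set P), 0 < k ∧ (∀ i, IsClass (A i)) ∧ C ⊆ Merge A ∧ ∀ i, ¬ C ⊆ A i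

/-- Words `l s₁ (l s₂ (... (u t)))`. -/
inductive M : Type
  | u (t : ℤ) : M
  | l (s : ℤ) (z : M) : M

def X : M → List ℤ
  | .u t => [2 * t + 1]
  | .l s z => (2 * s) :: X z

def Y (K : ℤ) : M → List ℤ
  | .u t => [2 * (K - t) - 1]
  | .l s z => (-(2 * s)) :: Y K z

lemma Xu (t : ℤ) : X (.u t) = [2 * t + 1] := rfl
lemma Xl (s : ℤ) (z : M) : X (.l s z) = (2 * s) :: X z := rfl
lemma Yu (K t : ℤ) : Y K (.u t) = [2 * (K - t) - 1] := rfl
lemma Yl (K s : ℤ) (z : M) : Y K (.l s z) = (-(2 * s)) :: Y K z := rfl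

lemma X_inj : ∀ a b : M, X a = X b → a = b
  | .u t, .u t', h => by
      simp only [Xu, List.cons.injEq, and_true] at h
      have : t = t' := by omega
      rw [this]
  | .u t, .l s z, h => by
      simp only [Xu, Xl, List.cons.injEq] at h
      omega
  | .l s z, .u t, h => by
      simp only [Xu, Xl, List.cons.injEq] at h
      omega
  | .l s z, .l s' z', h => by
      simp only [Xl, List.cons.injEq] at h
      have h1 : s = s' := by omega
      rw [h1, X_inj z z' h.2]

lemma Y_inj (K : ℤ) : ∀ a b : M, Y K a = Y K b → a = b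
  | .u t, .u t', h => by
      simp only [Yu, List.cons.injEq, and_true] at h
      have : t = t' := by omega
      rw [this]
  | .u t, .l s z, h => by
      simp only [Yu, Yl, List.cons.injEq] at h
      omega
  | .l s z, .u t, h => by
      simp only [Yu, Yl, List.cons.injEq] at h
      omega
  | .l s z, .l s' z', h => by
      simp only [Yl, List.cons.injEq] at h
      have h1 : s = s' := by omega
      rw [h1, Y_inj K z z' h.2]

/-- comparison lemmas -/
lemma Xuu (t t' : ℤ) : X (.u t) < X (.u t') ↔ t < t' := by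
  rw [Xu, Xu, List.cons_lt_cons_iff]
  simp only [lt_self_iff_false, and_false, or_false]
  omega

lemma Xul (t s : ℤ) (z : M) : X (.u t) < X (.l s z) ↔ t < s := by
  rw [Xu, Xl, List.cons_lt_cons_iff]
  constructor
  · rintro (h | h) <;> omega
  · intro h; left; omega

lemma Xlu (t s : ℤ) (z : M) : X (.l s z) < X (.u t) ↔ s ≤ t := by
  rw [Xu, Xl, List.cons_lt_cons_iff]
  constructor
  · rintro (h | h) <;> omega
  · intro h; left; omega

lemma Xll (s s' : ℤ) (z z' : M) : X (.l s z) < X (.l s' z') ↔ s < s' ∨ s = s' ∧ X z < X z' := by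
  rw [Xl, Xl, List.cons_lt_cons_iff]
  constructor
  · rintro (h | ⟨h, h'⟩)
    · left; omega
    · right; exact ⟨by omega, h'⟩
  · rintro (h | ⟨h, h'⟩)
    · left; omega
    · right; exact ⟨by omega, h'⟩

lemma Yuu (K t t' : ℤ) : Y K (.u t) < Y K (.u t') ↔ t' < t := by
  rw [Yu, Yu, List.cons_lt_cons_iff]
  simp only [lt_self_iff_false, and_false, or_false]
  omega

lemma Yul (K t s : ℤ) (z : M) : Y K (.u t) < Y K (.l s z) ↔ s + K ≤ t := by
  rw [Yu, Yl, List.cons_lt_cons_iff]
  constructor
  · rintro (h | h) <;> omega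
  · intro h; left; omega

lemma Ylu (K t s : ℤ) (z : M) : Y K (.l s z) < Y K (.u t) ↔ t < s + K := by
  rw [Yu, Yl, List.cons_lt_cons_iff]
  constructor
  · rintro (h | h) <;> omega
  · intro h; left; omega

lemma Yll (K s s' : ℤ) (z z' : M) :
    Y K (.l s z) < Y K (.l s' z') ↔ s' < s ∨ s = s' ∧ Y K z < Y K z' := by
  rw [Yl, Yl, List.cons_lt_cons_iff]
  constructor
  · rintro (h | ⟨h, h'⟩)
    · left; omega
    · right; exact ⟨by omega, h'⟩
  · rintro (h | ⟨h, h'⟩)
    · left; omega
    · right; exact ⟨by omega, h'⟩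

/-- self-embeddings of the structure `M` -/
def SE (K : ℤ) (f : M → M) : Prop :=
  (∀ a b, X a < X b ↔ X (f a) < X (f b)) ∧ (∀ a b, Y K a < Y K b ↔ Y K (f a) < Y K (f b))

lemma SE_id (K : ℤ) : SE K id := ⟨fun _ _ => Iff.rfl, fun _ _ => Iff.rfl⟩

lemma SE_comp {K : ℤ} {f g : M → M} (hf : SE K f) (hg : SE K g) : SE K (fun z => g (f z)) :=
  ⟨fun a b => (hf.1 a b).trans (hg.1 _ _), fun a b => (hf.2 a b).trans (hg.2 _ _)⟩

/-- prepending a lower letter -/
lemma SE_l (K s : ℤ) : SE K (fun z => .l s z) := by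
  refine ⟨fun a b => ?_, fun a b => ?_⟩
  · simp only [Xll, lt_self_iff_false, true_and, false_or]
  · simp only [Yll, lt_self_iff_false, true_and, false_or]

/-- translation -/
def tr (c : ℤ) : M → M
  | .u t => .u (t + c)
  | .l s z => .l (s + c) (tr c z)

lemma tr_X (c : ℤ) : ∀ a b : M, X a < X b ↔ X (tr c a) < X (tr c b)
  | .u t, .u t' => by simp only [tr, Xuu]; omega
  | .u t, .l s z => by simp only [tr, Xul]; omega
  | .l s z, .u t => by simp only [tr, Xlu]; omega
  | .l s z, .l s' z' => by
      simp only [tr, Xll, ← tr_X c z z']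
      constructor
      · rintro (h | h)
        · left; omega
        · right; exact ⟨by omega, h.2⟩
      · rintro (h | h)
        · left; omega
        · right; exact ⟨by omega, h.2⟩

lemma tr_Y (K c : ℤ) : ∀ a b : M, Y K a < Y K b ↔ Y K (tr c a) < Y K (tr c b)
  | .u t, .u t' => by simp only [tr, Yuu]; omega
  | .u t, .l s z => by simp only [tr, Yul]; omega
  | .l s z, .u t => by simp only [tr, Ylu]; omega
  | .l s z, .l s' z' => by
      simp only [tr, Yll, ← tr_Y K c z z']
      constructor
      · rintro (h | h)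
        · left; omega
        · right; exact ⟨by omega, h.2⟩
      · rintro (h | h)
        · left; omega
        · right; exact ⟨by omega, h.2⟩

/-- apply `f` inside the block of the letter `s`, identity outside -/
def bl (s : ℤ) (f : M → M) : M → M
  | .u t => .u t
  | .l s' z => if s' = s then .l s' (f z) else .l s' z

lemma bl_u (s : ℤ) (f : M → M) (t : ℤ) : bl s f (.u t) = .u t := rfl

lemma bl_l (s : ℤ) (f : M → M) (s' : ℤ) (z : M) :
    bl s f (.l s' z) = .l s' (if s' = s then f z else z) := by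
  simp only [bl]
  split_ifs <;> rfl

lemma SE_bl {K s : ℤ} {f : M → M} (hf : SE K f) : SE K (bl s f) := by
  refine ⟨fun a b => ?_, fun a b => ?_⟩
  · cases a with
    | u t =>
      cases b with
      | u t' => simp only [bl_u]
      | l s' z => simp only [bl_u, bl_l, Xul]
    | l s' z =>
      cases b with
      | u t' => simp only [bl_u, bl_l, Xlu]
      | l s'' z' =>
        simp only [bl_l, Xll]
        by_cases h : s' = s''
        · subst h
          by_cases h2 : s' = s
          · simp only [h2, if_true, ← hf.1 z z']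
          · simp only [h2, if_false]
        · simp only [h, false_and]
  · cases a with
    | u t =>
      cases b with
      | u t' => simp only [bl_u]
      | l s' z => simp only [bl_u, bl_l, Yul]
    | l s' z =>
      cases b with
      | u t' => simp only [bl_u, bl_l, Ylu]
      | l s'' z' =>
        simp only [bl_l, Yll]
        by_cases h : s' = s''
        · subst h
          by_cases h2 : s' = s
          · simp only [h2, if_true, ← hf.2 z z']
          · simp only [h2, if_false]
        · simp only [h, false_and]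

/-- any two points of `M` can be identified by self-embeddings -/
lemma ident (K : ℤ) : ∀ x y : M, ∃ f g : M → M, SE K f ∧ SE K g ∧ f x = g y
  | .u t, .u t' => ⟨tr (t' - t), id, ⟨tr_X _, tr_Y K _⟩, SE_id K, by
      simp only [tr, id]; congr 1; ring⟩
  | .l s x', y => by
      obtain ⟨f, g, hf, hg, h⟩ := ident K x' y
      refine ⟨bl s f, fun z => .l s (g z), SE_bl hf, SE_comp hg (SE_l K s), ?_⟩
      rw [bl_l, if_pos rfl, h]
  | .u t, .l s y' => by
      obtain ⟨f, g, hf, hg, h⟩ := ident K (.u t) y'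
      refine ⟨fun z => .l s (f z), bl s g, SE_comp hf (SE_l K s), SE_bl hg, ?_⟩
      rw [bl_l, if_pos rfl, ← h]

/-- `e` draws `π` on points of `M`. -/
def Draw (K : ℤ) {n : ℕ} (π : Equiv.Perm (Fin n)) (e : Fin n → M) : Prop :=
  (∀ i j, i < j ↔ X (e i) < X (e j)) ∧ (∀ i j, π i < π j ↔ Y K (e i) < Y K (e j))

def D (K : ℤ) : Set P := {π | ∃ e, Draw K π.2 e}

lemma D_class (K : ℤ) : IsClass (D K) := by
  rintro σ π ⟨e, he⟩ ⟨f, hf⟩
  exact ⟨fun i => e (f i), fun i j => (hf.1 i j).trans (he.1 _ _),
    fun i j => (hf.2 i j).trans (he.2 _ _)⟩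

lemma enum {S : Type} [Fintype S] {L : Type} [LinearOrder L] (f : S → L)
    (hf : Function.Injective f) (n : ℕ) (hn : Fintype.card S = n) :
    ∃ e : Fin n ≃ S, ∀ i j, i < j ↔ f (e i) < f (e j) := by
  classical
  let _ : LinearOrder S := LinearOrder.lift' f hf
  let o : Fin n ≃o S := monoEquivOfFin S hn
  refine ⟨o.toEquiv, fun i j => ?_⟩
  have h1 : i < j ↔ o i < o j := (OrderIso.lt_iff_lt o).symm
  exact h1

lemma exists_perm (K : ℤ) (S : Finset M) :
    ∃ (n : ℕ) (π : Equiv.Perm (Fin n)) (e : Fin n → M), Draw K π e ∧ Set.range e = (S : Set M) := by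
  classical
  obtain ⟨eX, hX⟩ := enum (S := S) (fun z => X z.1)
    (fun a b h => Subtype.ext (X_inj _ _ h)) (Fintype.card S) rfl
  obtain ⟨eY, hY⟩ := enum (S := S) (fun z => Y K z.1)
    (fun a b h => Subtype.ext (Y_inj K _ _ h)) (Fintype.card S) rfl
  refine ⟨Fintype.card S, eX.trans eY.symm, fun i => (eX i).1, ⟨hX, fun i j => ?_⟩, ?_⟩
  · rw [hY]
    simp
  · ext z
    constructor
    · rintro ⟨i, rfl⟩
      exact (eX i).2
    · intro hz
      exact ⟨eX.symm ⟨z, hz⟩, by simp⟩

lemma Draw.inj {K : ℤ} {n : ℕ} {π : Equiv.Perm (Fin n)} {e : Fin n → M} (h : Draw K π e) :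
    Function.Injective e := by
  intro i j hij
  rcases lt_trichotomy i j with h1 | h1 | h1
  · have := (h.1 i j).1 h1
    rw [hij] at this
    exact absurd this (lt_irrefl _)
  · exact h1
  · have := (h.1 j i).1 h1
    rw [hij] at this
    exact absurd this (lt_irrefl _)

/-- if all points of a drawing of `β` (moved by a self-embedding) lie among the points of a
drawing of `δ`, then `β` embeds in `δ` -/
lemma emb_of {K : ℤ} {m n : ℕ} {β : Equiv.Perm (Fin m)} {δ : Equiv.Perm (Fin n)}
    {e : Fin m → M} {e' : Fin n → M} (he : Draw K β e) (he' : Draw K δ e') (f : Fin m → Fin n)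
    (hf : ∀ i, e' (f i) = e i) : IsEmb β δ f := by
  refine ⟨fun i j => ?_, fun i j => ?_⟩
  · rw [he.1, he'.1, hf, hf]
  · rw [he.2, he'.2, hf, hf]

lemma Draw.comp {K : ℤ} {n : ℕ} {π : Equiv.Perm (Fin n)} {e : Fin n → M} (h : Draw K π e)
    {f : M → M} (hf : SE K f) : Draw K π (fun i => f (e i)) :=
  ⟨fun i j => (h.1 i j).trans (hf.1 _ _), fun i j => (h.2 i j).trans (hf.2 _ _)⟩

lemma D_amalg (K : ℤ) : OneAmalgamable (D K) := by
  classical
  rintro α - hα β ⟨eβ, hβ⟩ γ ⟨eγ, hγ⟩ f g hf hg
  have key : ∃ F G : M → M, SE K F ∧ SE K G ∧ ∀ i, F (eβ (f i)) = G (eγ (g i)) := by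
    rcases Nat.eq_zero_or_pos α.1 with h0 | h0
    · refine ⟨id, id, SE_id K, SE_id K, fun i => ?_⟩
      have := i.2
      omega
    · obtain ⟨F, G, hF, hG, h⟩ := ident K (eβ (f ⟨0, h0⟩)) (eγ (g ⟨0, h0⟩))
      refine ⟨F, G, hF, hG, fun i => ?_⟩
      have : i = ⟨0, h0⟩ := by
        apply Fin.ext
        have := i.2
        show i.1 = 0
        omega
      rw [this]
      exact h
  obtain ⟨F, G, hF, hG, hFG⟩ := key
  obtain ⟨n, δ, e, he, hr⟩ := exists_perm K
    (Finset.univ.image (fun i => F (eβ i)) ∪ Finset.univ.image (fun i => G (eγ i)))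
  have h1 : ∀ i, ∃ k, e k = F (eβ i) := by
    intro i
    have : F (eβ i) ∈ Set.range e := by
      rw [hr]
      simp
    exact this
  have h2 : ∀ i, ∃ k, e k = G (eγ i) := by
    intro i
    have : G (eγ i) ∈ Set.range e := by
      rw [hr]
      simp
    exact this
  choose f' hf' using h1
  choose g' hg' using h2
  refine ⟨⟨n, δ⟩, ⟨e, he⟩, f', g', emb_of (hβ.comp hF) he f' hf', emb_of (hγ.comp hG) he g' hg', ?_⟩
  funext i
  apply he.inj
  simp only [Function.comp]
  rw [hf', hg', hFG]

/-! ### zigzags -/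

/-- first letters -/
def FX : M → ℤ
  | .u t => 2 * t + 1
  | .l s _ => 2 * s

def FY (K : ℤ) : M → ℤ
  | .u t => 2 * (K - t) - 1
  | .l s _ => -(2 * s)

lemma FX_le {a b : M} (h : X a < X b) : FX a ≤ FX b := by
  cases a with
  | u t =>
    cases b with
    | u t' => rw [Xuu] at h; simp only [FX]; omega
    | l s z => rw [Xul] at h; simp only [FX]; omega
  | l s z =>
    cases b with
    | u t' => rw [Xlu] at h; simp only [FX]; omega
    | l s' z' =>
      rw [Xll] at h; simp only [FX]
      rcases h with h | h <;> omega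

lemma FY_le {K : ℤ} {a b : M} (h : Y K a < Y K b) : FY K a ≤ FY K b := by
  cases a with
  | u t =>
    cases b with
    | u t' => rw [Yuu] at h; simp only [FY]; omega
    | l s z => rw [Yul] at h; simp only [FY]; omega
  | l s z =>
    cases b with
    | u t' => rw [Ylu] at h; simp only [FY]; omega
    | l s' z' =>
      rw [Yll] at h; simp only [FY]
      rcases h with h | h <;> omega

lemma FXY {K : ℤ} (a b : M) : FX a = FX b ↔ FY K a = FY K b := by
  cases a with
  | u t =>
    cases b with
    | u t' => simp only [FX, FY]; omega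
    | l s z => simp only [FX, FY]; omega
  | l s z =>
    cases b with
    | u t' => simp only [FX, FY]; omega
    | l s' z' => simp only [FX, FY]; omega

/-- only lower letters are below upper letters -/
lemma type_of {K : ℤ} (hK : 0 ≤ K) {a b : M} (h : FX a < FX b) (h' : FY K a < FY K b) :
    (∃ s z, a = .l s z) ∧ ∃ t, b = .u t := by
  cases a with
  | u t =>
    cases b with
    | u t' => simp only [FX, FY] at h h'; omega
    | l s z => simp only [FX, FY] at h h'; omega
  | l s z =>
    cases b with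
    | u t' => exact ⟨⟨s, z, rfl⟩, ⟨t', rfl⟩⟩
    | l s' z' => simp only [FX, FY] at h h'; omega

/-- number of letters -/
def dep : M → ℕ
  | .u _ => 0
  | .l _ z => dep z + 1

/-- terminal letter -/
def ter : M → ℤ
  | .u t => t
  | .l _ z => ter z

/-- a zigzag of `n` pairs of points of `M` -/
def Zig (K : ℤ) (n : ℕ) (a b : ℕ → M) : Prop :=
  (∀ i, i < n → X (a i) < X (b i)) ∧ (∀ i, i + 1 < n → X (b i) < X (a (i + 1))) ∧
  (∀ i, i + 1 < n → Y K (b (i + 1)) < Y K (b i)) ∧ Y K (a 0) < Y K (b (n - 1)) ∧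
  (∀ i, i + 1 < n → Y K (a (i + 1)) < Y K (a i))

lemma same_letter {a b : M} (h : X a < X b) (hf : FX a = FX b) :
    ∃ s z z', a = .l s z ∧ b = .l s z' ∧ X z < X z' := by
  cases a with
  | u t =>
    cases b with
    | u t' => rw [Xuu] at h; simp only [FX] at hf; omega
    | l s z => simp only [FX] at hf; omega
  | l s z =>
    cases b with
    | u t' => simp only [FX] at hf; omega
    | l s' z' =>
      simp only [FX] at hf
      have : s = s' := by omega
      subst this
      rw [Xll] at h
      refine ⟨s, z, z', rfl, rfl, ?_⟩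
      rcases h with h | h
      · omega
      · exact h.2

lemma letter_eq {s : ℤ} {z b : M} (hf : FX (.l s z) = FX b) : ∃ z', b = .l s z' := by
  cases b with
  | u t' => simp only [FX] at hf; omega
  | l s' z' =>
    simp only [FX] at hf
    have : s = s' := by omega
    subst this
    exact ⟨z', rfl⟩


/-- remove the first letter -/
def strip : M → M
  | .u t => .u t
  | .l _ z => z

lemma mono_chain {n : ℕ} {f : ℕ → ℤ} (h : ∀ i, i + 1 < n → f i ≤ f (i + 1)) :
    ∀ j, j < n → ∀ i, i ≤ j → f i ≤ f j := by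
  intro j
  induction j with
  | zero =>
    intro _ i hi
    have : i = 0 := by omega
    rw [this]
  | succ j ih =>
    intro hj i hi
    rcases Nat.lt_or_ge i (j + 1) with h1 | h1
    · exact (ih (by omega) i (by omega)).trans (h j hj)
    · have : i = j + 1 := by omega
      rw [this]

/-- The key lemma: a zigzag of at least two pairs lives at one node. -/
lemma zig_key {K : ℤ} (hK : 0 ≤ K) {n : ℕ} (hn : 2 ≤ n) : ∀ (N : ℕ) (a b : ℕ → M), dep (a 0) < N →
    Zig K n a b → ∃ s t : ℕ → ℤ, (∀ i, i < n → s i ≤ t i) ∧ (∀ i, i + 1 < n → t i < s (i + 1)) ∧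
      t (n - 1) < s 0 + K ∧ ∀ i, i < n → ter (b i) = t i := by
  intro N
  induction N with
  | zero =>
    intro a b hd
    omega
  | succ N ih =>
    intro a b hd hz
    obtain ⟨h1, h2, h3, h4, h5⟩ := hz
    have mab : ∀ i, i < n → FX (a i) ≤ FX (b i) := fun i hi => FX_le (h1 i hi)
    have mba : ∀ i, i + 1 < n → FX (b i) ≤ FX (a (i + 1)) := fun i hi => FX_le (h2 i hi)
    have ma : ∀ j, j < n → ∀ i, i ≤ j → FX (a i) ≤ FX (a j) :=
      mono_chain (f := fun i => FX (a i)) (fun i hi => (mab i (by omega)).trans (mba i hi))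
    have mb : ∀ j, j < n → ∀ i, i ≤ j → FX (b i) ≤ FX (b j) :=
      mono_chain (f := fun i => FX (b i)) (fun i hi => (mba i hi).trans (mab (i + 1) (by omega)))
    have ya : ∀ i, i < n → FY K (a i) ≤ FY K (a 0) := by
      intro i hi
      have := mono_chain (n := n) (f := fun i => - FY K (a i))
        (fun i hi => by
          have := FY_le (h5 i hi)
          show - FY K (a i) ≤ - FY K (a (i + 1))
          omega) i hi 0 (by omega)
      omega
    have yb : ∀ i, i < n → FY K (b (n - 1)) ≤ FY K (b i) := by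
      intro i hi
      have := mono_chain (n := n) (f := fun i => - FY K (b i))
        (fun i hi => by
          have := FY_le (h3 i hi)
          show - FY K (b i) ≤ - FY K (b (i + 1))
          omega) (n - 1) (by omega) i (by omega)
      omega
    have yab : FY K (a 0) ≤ FY K (b (n - 1)) := FY_le h4
    by_cases hE : FX (a 0) = FX (b (n - 1))
    · -- all first letters are equal
      have ea : ∀ i, i < n → FX (a 0) = FX (a i) := by
        intro i hi
        have q1 := ma i hi 0 (by omega)
        have q2 := mab i hi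
        have q3 := mb (n - 1) (by omega) i (by omega)
        omega
      have eb : ∀ i, i < n → FX (a 0) = FX (b i) := by
        intro i hi
        have q1 := ma i hi 0 (by omega)
        have q2 := mab i hi
        have q3 := mb (n - 1) (by omega) i (by omega)
        omega
      obtain ⟨s, z, z', hz, hz', -⟩ := same_letter (h1 0 (by omega)) (eb 0 (by omega))
      have la : ∀ i, i < n → a i = .l s (strip (a i)) := by
        intro i hi
        have := ea i hi
        rw [hz] at this
        obtain ⟨w, hw⟩ := letter_eq this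
        rw [hw]
        rfl
      have lb : ∀ i, i < n → b i = .l s (strip (b i)) := by
        intro i hi
        have := eb i hi
        rw [hz] at this
        obtain ⟨w, hw⟩ := letter_eq this
        rw [hw]
        rfl
      have hd' : dep (strip (a 0)) < N := by
        rw [hz] at hd ⊢
        simp only [dep, strip] at hd ⊢
        omega
      have hx : ∀ p q : M, p = .l s (strip p) → q = .l s (strip q) → X p < X q →
          X (strip p) < X (strip q) := by
        intro p q hp hq h
        rw [hp, hq, Xll] at h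
        rcases h with h | h
        · omega
        · exact h.2
      have hy : ∀ p q : M, p = .l s (strip p) → q = .l s (strip q) → Y K p < Y K q →
          Y K (strip p) < Y K (strip q) := by
        intro p q hp hq h
        rw [hp, hq, Yll] at h
        rcases h with h | h
        · omega
        · exact h.2
      obtain ⟨S, T, c1, c2, c3, c4⟩ := ih (fun i => strip (a i)) (fun i => strip (b i)) hd'
        ⟨fun i hi => hx _ _ (la i hi) (lb i hi) (h1 i hi),
         fun i hi => hx _ _ (lb i (by omega)) (la (i + 1) hi) (h2 i hi),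
         fun i hi => hy _ _ (lb (i + 1) hi) (lb i (by omega)) (h3 i hi),
         hy _ _ (la 0 (by omega)) (lb (n - 1) (by omega)) h4,
         fun i hi => hy _ _ (la (i + 1) hi) (la i (by omega)) (h5 i hi)⟩
      refine ⟨S, T, c1, c2, c3, fun i hi => ?_⟩
      rw [lb i hi]
      exact c4 i hi
    · have hE' : FY K (a 0) < FY K (b (n - 1)) := by
        rcases lt_or_eq_of_le yab with h | h
        · exact h
        · exact absurd ((FXY _ _).2 h) hE
      have hlt : ∀ i j, i < n → j < n → FY K (a i) < FY K (b j) := by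
        intro i j hi hj
        have q1 := ya i hi
        have q2 := yb j hj
        omega
      have hne : ∀ i j, i < n → j < n → FX (a i) ≠ FX (b j) := by
        intro i j hi hj h
        have q := hlt i j hi hj
        rw [(FXY (K := K) _ _).1 h] at q
        exact lt_irrefl _ q
      have ty : ∀ i, i < n → (∃ s z, a i = .l s z) ∧ ∃ t, b i = .u t := by
        intro i hi
        exact type_of hK (lt_of_le_of_ne (mab i hi) (hne i i hi hi)) (hlt i i hi hi)
      have tya : ∀ i, ∃ s, i < n → ∃ z, a i = .l s z := by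
        intro i
        by_cases hi : i < n
        · obtain ⟨s, z, h⟩ := (ty i hi).1
          exact ⟨s, fun _ => ⟨z, h⟩⟩
        · exact ⟨0, fun h => absurd h hi⟩
      have tyb : ∀ i, ∃ t, i < n → b i = .u t := by
        intro i
        by_cases hi : i < n
        · obtain ⟨t, h⟩ := (ty i hi).2
          exact ⟨t, fun _ => h⟩
        · exact ⟨0, fun h => absurd h hi⟩
      choose S hS using tya
      choose T hT using tyb
      refine ⟨S, T, fun i hi => ?_, fun i hi => ?_, ?_, fun i hi => ?_⟩
      · have q := h1 i hi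
        obtain ⟨z, hz⟩ := hS i hi
        rw [hz, hT i hi, Xlu] at q
        exact q
      · have q := h2 i hi
        obtain ⟨z, hz⟩ := hS (i + 1) hi
        rw [hz, hT i (by omega), Xul] at q
        exact q
      · have q := h4
        obtain ⟨z, hz⟩ := hS 0 (by omega)
        rw [hz, hT (n - 1) (by omega), Ylu] at q
        exact q
      · rw [hT i hi]
        rfl

lemma zig_bounds {K : ℤ} (hK : 0 ≤ K) {n : ℕ} (hn : 2 ≤ n) {a b : ℕ → M} (hz : Zig K n a b) :
    (n : ℤ) ≤ K ∧ ((∀ i j, i < n → j < n → ter (b i) % 2 = ter (b j) % 2) → 2 * (n : ℤ) - 1 ≤ K) := by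
  obtain ⟨s, t, h1, h2, h3, h4⟩ := zig_key hK hn (dep (a 0) + 1) a b (Nat.lt_succ_self _) hz
  have g1 : ∀ i, i < n → t 0 + i ≤ t i := by
    intro i
    induction i with
    | zero => intro _; simp
    | succ i ih =>
      intro hi
      have q1 := ih (by omega)
      have q2 := h2 i hi
      have q3 := h1 (i + 1) hi
      push_cast
      omega
  have h0 := h1 0 (by omega)
  refine ⟨?_, fun hp => ?_⟩
  · have q := g1 (n - 1) (by omega)
    have : ((n - 1 : ℕ) : ℤ) = (n : ℤ) - 1 := by
      rw [Nat.cast_sub (by omega)]; rfl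
    omega
  · have g2 : ∀ i, i < n → t 0 + 2 * i ≤ t i := by
      intro i
      induction i with
      | zero => intro _; simp
      | succ i ih =>
        intro hi
        have q1 := ih (by omega)
        have q2 := h2 i hi
        have q3 := h1 (i + 1) hi
        have q4 := hp i (i + 1) (by omega) hi
        rw [h4 i (by omega), h4 (i + 1) hi] at q4
        push_cast
        omega
    have q := g2 (n - 1) (by omega)
    have : ((n - 1 : ℕ) : ℤ) = (n : ℤ) - 1 := by
      rw [Nat.cast_sub (by omega)]; rfl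
    omega

/-- `π` contains a zigzag of `n` pairs. -/
def HasZig (n : ℕ) {m : ℕ} (π : Equiv.Perm (Fin m)) : Prop :=
  ∃ a b : ℕ → Fin m, (∀ i, i < n → a i < b i) ∧ (∀ i, i + 1 < n → b i < a (i + 1)) ∧
    (∀ i, i + 1 < n → π (b (i + 1)) < π (b i)) ∧ π (a 0) < π (b (n - 1)) ∧
    (∀ i, i + 1 < n → π (a (i + 1)) < π (a i))

lemma HasZig.mono {n m k : ℕ} {σ : Equiv.Perm (Fin m)} {π : Equiv.Perm (Fin k)} {f : Fin m → Fin k}
    (hf : IsEmb σ π f) (h : HasZig n σ) : HasZig n π := by
  obtain ⟨a, b, h1, h2, h3, h4, h5⟩ := h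
  exact ⟨fun i => f (a i), fun i => f (b i), fun i hi => (hf.1 _ _).1 (h1 i hi),
    fun i hi => (hf.1 _ _).1 (h2 i hi), fun i hi => (hf.2 _ _).1 (h3 i hi),
    (hf.2 _ _).1 h4, fun i hi => (hf.2 _ _).1 (h5 i hi)⟩

lemma HasZig.draw {K : ℤ} {n m : ℕ} {π : Equiv.Perm (Fin m)} {e : Fin m → M} (he : Draw K π e)
    {a b : ℕ → Fin m} (h : (∀ i, i < n → a i < b i) ∧ (∀ i, i + 1 < n → b i < a (i + 1)) ∧
    (∀ i, i + 1 < n → π (b (i + 1)) < π (b i)) ∧ π (a 0) < π (b (n - 1)) ∧
    (∀ i, i + 1 < n → π (a (i + 1)) < π (a i))) :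
    Zig K n (fun i => e (a i)) (fun i => e (b i)) := by
  obtain ⟨h1, h2, h3, h4, h5⟩ := h
  exact ⟨fun i hi => (he.1 _ _).1 (h1 i hi), fun i hi => (he.1 _ _).1 (h2 i hi),
    fun i hi => (he.2 _ _).1 (h3 i hi), (he.2 _ _).1 h4, fun i hi => (he.2 _ _).1 (h5 i hi)⟩

/-- `D K` contains a permutation with a zigzag of `K` pairs. -/
lemma D_has (K : ℕ) (hK : 1 ≤ K) : ∃ π ∈ D (K : ℤ), HasZig K π.2 := by
  classical
  obtain ⟨m, π, e, he, hr⟩ := exists_perm (K : ℤ)
    ((Finset.range K).image (fun i : ℕ => M.l i (.u 0)) ∪ (Finset.range K).image (fun i : ℕ => M.u i))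
  have h1 : ∀ i : ℕ, ∃ k, i < K → e k = M.l i (.u 0) := by
    intro i
    by_cases hi : i < K
    · have : M.l i (.u 0) ∈ Set.range e := by
        rw [hr]
        simp only [Finset.coe_union, Finset.coe_image, Finset.coe_range, Set.mem_union,
          Set.mem_image, Set.mem_Iio]
        exact Or.inl ⟨i, hi, rfl⟩
      obtain ⟨k, hk⟩ := this
      exact ⟨k, fun _ => hk⟩
    · have : M.l (0 : ℕ) (.u 0) ∈ Set.range e := by
        rw [hr]
        simp only [Finset.coe_union, Finset.coe_image, Finset.coe_range, Set.mem_union,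
          Set.mem_image, Set.mem_Iio]
        exact Or.inl ⟨0, hK, rfl⟩
      obtain ⟨k, hk⟩ := this
      exact ⟨k, fun h => absurd h hi⟩
  have h2 : ∀ i : ℕ, ∃ k, i < K → e k = M.u i := by
    intro i
    by_cases hi : i < K
    · have : M.u i ∈ Set.range e := by
        rw [hr]
        simp only [Finset.coe_union, Finset.coe_image, Finset.coe_range, Set.mem_union,
          Set.mem_image, Set.mem_Iio]
        exact Or.inr ⟨i, hi, rfl⟩
      obtain ⟨k, hk⟩ := this
      exact ⟨k, fun _ => hk⟩
    · have : M.l (0 : ℕ) (.u 0) ∈ Set.range e := by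
        rw [hr]
        simp only [Finset.coe_union, Finset.coe_image, Finset.coe_range, Set.mem_union,
          Set.mem_image, Set.mem_Iio]
        exact Or.inl ⟨0, hK, rfl⟩
      obtain ⟨k, hk⟩ := this
      exact ⟨k, fun h => absurd h hi⟩
  choose a ha using h1
  choose b hb using h2
  refine ⟨⟨m, π⟩, ⟨e, he⟩, a, b, fun i hi => ?_, fun i hi => ?_, fun i hi => ?_, ?_, fun i hi => ?_⟩
  · rw [he.1, ha i hi, hb i hi, Xlu]
  · rw [he.1, hb i (by omega), ha (i + 1) hi, Xul]
    push_cast
    omega
  · show π _ < π _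
    rw [he.2, hb i (by omega), hb (i + 1) hi, Yuu]
    push_cast
    omega
  · show π _ < π _
    rw [he.2, ha 0 (by omega), hb (K - 1) (by omega), Ylu]
    have : ((K - 1 : ℕ) : ℤ) = (K : ℤ) - 1 := by
      rw [Nat.cast_sub (by omega)]; rfl
    rw [this]
    push_cast
    omega
  · show π _ < π _
    rw [he.2, ha i (by omega), ha (i + 1) hi, Yll]
    left
    push_cast
    omega

/-- restriction of a drawn permutation to a set of entries -/
lemma exists_sub {K : ℤ} {n : ℕ} {π : Equiv.Perm (Fin n)} {e : Fin n → M} (he : Draw K π e)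
    (Q : Set (Fin n)) : ∃ (m : ℕ) (σ : Equiv.Perm (Fin m)) (f : Fin m → Fin n),
      IsEmb σ π f ∧ Set.range f = Q ∧ Draw K σ (fun i => e (f i)) := by
  classical
  obtain ⟨m, σ, e', he', hr⟩ := exists_perm K ((Finset.univ.filter (fun i => i ∈ Q)).image e)
  have h1 : ∀ i, ∃ k, k ∈ Q ∧ e k = e' i := by
    intro i
    have : e' i ∈ Set.range e' := ⟨i, rfl⟩
    rw [hr] at this
    simpa using this
  choose f hfQ hf using h1
  refine ⟨m, σ, f, emb_of he' he f hf, ?_, ?_⟩
  · ext k
    constructor
    · rintro ⟨i, rfl⟩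
      exact hfQ i
    · intro hk
      have : e k ∈ Set.range e' := by
        rw [hr]
        simpa using ⟨k, hk, rfl⟩
      obtain ⟨i, hi⟩ := this
      refine ⟨i, he.inj ?_⟩
      rw [hf, hi]
  · have : (fun i => e (f i)) = e' := funext hf
    rw [this]
    exact he'

lemma D_split (K : ℕ) (hK : 2 ≤ K) : Splittable (D (K : ℤ)) := by
  classical
  refine ⟨2, fun _ => {π | π ∈ D (K : ℤ) ∧ ¬ HasZig K π.2}, by norm_num, fun i => ?_, ?_, fun i => ?_⟩
  · rintro σ π ⟨hπ, hz⟩ ⟨f, hf⟩
    exact ⟨D_class _ σ π hπ ⟨f, hf⟩, fun h => hz (h.mono hf)⟩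
  · rintro π ⟨e, he⟩
    refine ⟨fun k => if ter (e k) % 2 = 0 then 0 else 1, fun i => ?_⟩
    obtain ⟨m, σ, f, hf, hr, hd⟩ := exists_sub he
      {x | (if ter (e x) % 2 = 0 then (0 : Fin 2) else 1) = i}
    refine ⟨⟨m, σ⟩, ⟨⟨_, hd⟩, ?_⟩, f, hf, hr⟩
    rintro ⟨a, b, hab⟩
    have hz := HasZig.draw hd hab
    have hpar : ∀ x, (ter (e (f x)) % 2 = 0 ↔ i = 0) := by
      intro x
      have : f x ∈ Set.range f := ⟨x, rfl⟩
      rw [hr] at this
      have this' : (if ter (e (f x)) % 2 = 0 then (0 : Fin 2) else 1) = i := this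
      rw [← this']
      split_ifs with h
      · simp [h]
      · simp [h]
    have := (zig_bounds (by omega) hK hz).2 (fun p q _ _ => by
      have h1 := hpar (b p)
      have h2 := hpar (b q)
      have h3 := h1.trans h2.symm
      omega)
    omega
  · intro hsub
    obtain ⟨π, hπ, hz⟩ := D_has K (by omega)
    exact (hsub hπ).2 hz

/-- There are infinitely many permutation classes that are both `1`-amalgamable and splittable. -/
theorem result : {C : Set P | IsClass C ∧ OneAmalgamable C ∧ Splittable C}.Infinite := by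
  apply Set.infinite_of_injective_forall_mem (f := fun k : ℕ => D ((k + 2 : ℕ) : ℤ))
  · have key : ∀ k k' : ℕ, k < k' → D ((k + 2 : ℕ) : ℤ) ≠ D ((k' + 2 : ℕ) : ℤ) := by
      intro k k' hkk h
      obtain ⟨π, hπ, hz⟩ := D_has (k' + 2) (by omega)
      rw [← h] at hπ
      obtain ⟨e, he⟩ := hπ
      obtain ⟨a, b, hab⟩ := hz
      have := (zig_bounds (by omega) (by omega) (HasZig.draw he hab)).1
      omega
    intro k k' h
    rcases lt_trichotomy k k' with h1 | h1 | h1
    · exact absurd h (key k k' h1)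
    · exact h1
    · exact absurd h.symm (key k' k h1)
  · intro k
    exact ⟨D_class _, D_amalg _, D_split (k + 2) (by omega)⟩

end Pool.Agent.Results.MP_80b08f_co.InfinitelyMany
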